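import Pool.Agent.Helper29.OV.ApiDefs

/-!
# Project OV, packet UWA: the universal words, algebraic part
-/

set_option autoImplicit false

namespace Pool.Agent.Helper41.OV

open Pool.Agent.Helper29.OV

section monoid

variable {M : Type} [Monoid M]

theorem F1 (N : ℕ) (hN : 0 < N) (hid : ∀ x : M, x ^ N * x ^ N = x ^ N) (e f a b : M)
    (he : e * e = e) (hf : f * f = f) (hef : e * f = f) (hfe : f * e = f) (h : a * f * b = e) :
    f = e := by
  obtain ⟨a', ha'⟩ : ∃ a', a' = e * a * f := ⟨_, rfl⟩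
  obtain ⟨b', hb'⟩ : ∃ b', b' = f * b * e := ⟨_, rfl⟩
  have h1 : a' * b' = e := by
    calc a' * b' = e * (a * (f * f) * b) * e := by rw [ha', hb']; simp only [mul_assoc]
      _ = e * e * e := by rw [hf, h]
      _ = e := by rw [he, he]
  have h2 : a' * e = a' := by rw [ha', mul_assoc, hfe]
  have h3 : a' * f = a' := by rw [ha', mul_assoc, hf]
  have h4 : ∀ n : ℕ, a' ^ (n + 1) * e = a' ^ (n + 1) := by
    intro n
    rw [pow_succ, mul_assoc, h2]
  have h5 : ∀ n : ℕ, a' ^ (n + 1) * b' ^ (n + 1) = e := by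
    intro n
    induction n with
    | zero => rw [zero_add, pow_one, pow_one, h1]
    | succ n ih =>
      calc a' ^ (n + 1 + 1) * b' ^ (n + 1 + 1) = (a' ^ (n + 1) * (a' * b')) * b' ^ (n + 1) := by
            rw [pow_succ a', pow_succ' b']
            simp only [mul_assoc]
        _ = a' ^ (n + 1) * b' ^ (n + 1) := by rw [h1, h4]
        _ = e := ih
  obtain ⟨n, rfl⟩ : ∃ n, N = n + 1 := ⟨N - 1, by omega⟩
  have h6 : a' ^ (n + 1) = e := by
    calc a' ^ (n + 1) = a' ^ (n + 1) * e := (h4 n).symm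
      _ = a' ^ (n + 1) * (a' ^ (n + 1) * b' ^ (n + 1)) := by rw [h5]
      _ = (a' ^ (n + 1) * a' ^ (n + 1)) * b' ^ (n + 1) := by rw [mul_assoc]
      _ = e := by rw [hid, h5]
  have h7 : a' ^ (n + 1) * f = a' ^ (n + 1) := by rw [pow_succ, mul_assoc, h3]
  rw [h6, hef] at h7
  exact h7

theorem F2 (N : ℕ) (hN : 0 < N) (hid : ∀ x : M, x ^ N * x ^ N = x ^ N) {S : Submonoid M} {e m : M}
    (h : MinIdem S e) (hm : m ∈ S) : (e * m * e) ^ N = e := by
  obtain ⟨h1, h2, h3⟩ := h
  have hx : e * m * e ∈ S := S.mul_mem (S.mul_mem h1 hm) h1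
  obtain ⟨y, _, z, _, hyz⟩ := h3 _ (S.pow_mem hx N)
  refine F1 N hN hid e _ y z h2 (hid _) ?_ ?_ hyz
  · obtain ⟨n, rfl⟩ : ∃ n, N = n + 1 := ⟨N - 1, by omega⟩
    rw [pow_succ', ← mul_assoc]
    congr 1
    rw [← mul_assoc, ← mul_assoc, h2]
  · obtain ⟨n, rfl⟩ : ∃ n, N = n + 1 := ⟨N - 1, by omega⟩
    rw [pow_succ, mul_assoc]
    congr 1
    rw [mul_assoc, h2]

theorem F3 (N : ℕ) (hN : 0 < N) (hid : ∀ x : M, x ^ N * x ^ N = x ^ N) {S : Submonoid M}
    {u k v : M} (hu : u ∈ S) (hk : MinIdem S k) (hv : v ∈ S) : MinIdem S ((u * k * v) ^ N) := by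
  have hx : u * k * v ∈ S := S.mul_mem (S.mul_mem hu hk.1) hv
  refine ⟨S.pow_mem hx N, hid _, ?_⟩
  intro y hy
  obtain ⟨a, ha, b, hb, hab⟩ := hk.2.2 y hy
  obtain ⟨n, rfl⟩ : ∃ n, N = n + 1 := ⟨N - 1, by omega⟩
  refine ⟨u * a, S.mul_mem hu ha, b * v * (u * k * v) ^ n,
    S.mul_mem (S.mul_mem hb hv) (S.pow_mem hx n), ?_⟩
  rw [pow_succ' (u * k * v)]
  calc u * a * y * (b * v * (u * k * v) ^ n) = u * (a * y * b) * v * (u * k * v) ^ n := by
        simp only [mul_assoc]
    _ = u * k * v * (u * k * v) ^ n := by rw [hab]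

end monoid

/-- the symbol which replaces a symbol -/
def sb (v : List (ℕ ⊕ ℕ)) : ℕ ⊕ ℕ → ℕ ⊕ ℕ
  | Sum.inl c => Sum.inl c
  | Sum.inr i => v.getD i (Sum.inr i)

theorem sub_eq (v u : List (ℕ ⊕ ℕ)) : sub v u = u.map (sb v) := by
  unfold sub
  congr 1

/-- the value of a word after substitution -/
def val {M : Type} [Monoid M] (μ : ℕ ⊕ ℕ → M) (v u : List (ℕ ⊕ ℕ)) : M :=
  (u.map (fun x => μ (sb v x))).prod

theorem val_eq {M : Type} [Monoid M] (μ : ℕ ⊕ ℕ → M) (v u : List (ℕ ⊕ ℕ)) :
    ((sub v u).map μ).prod = val μ v u := by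
  rw [sub_eq, List.map_map]
  rfl

theorem val_append {M : Type} [Monoid M] (μ : ℕ ⊕ ℕ → M) (v u w : List (ℕ ⊕ ℕ)) :
    val μ v (u ++ w) = val μ v u * val μ v w := by
  simp [val]

theorem val_single {M : Type} [Monoid M] (μ : ℕ ⊕ ℕ → M) (v : List (ℕ ⊕ ℕ)) (x : ℕ ⊕ ℕ) :
    val μ v [x] = μ (sb v x) := by
  simp [val]

theorem val_rep {M : Type} [Monoid M] (μ : ℕ ⊕ ℕ → M) (v u : List (ℕ ⊕ ℕ)) (N : ℕ) :
    val μ v (List.replicate N u).flatten = (val μ v u) ^ N := by
  induction N with
  | zero => simp [val]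
  | succ N ih => rw [List.replicate_succ, List.flatten_cons, val_append, ih, pow_succ']

theorem val_congr {M : Type} [Monoid M] (μ μ' : ℕ ⊕ ℕ → M) (v v' u : List (ℕ ⊕ ℕ))
    (h : ∀ x ∈ u, μ (sb v x) = μ' (sb v' x)) : val μ v u = val μ' v' u := by
  unfold val
  congr 1
  exact List.map_congr_left h

theorem V_zero (N : ℕ) (κ : ℕ → List (ℕ ⊕ ℕ)) (r b : ℕ) : V N κ (r + 1) b 0 = κ b := rfl

theorem V_succ (N : ℕ) (κ : ℕ → List (ℕ ⊕ ℕ)) (r b j : ℕ) : V N κ (r + 1) b (j + 1) =
    (List.replicate N (V N κ (r + 1) b j ++ [Sum.inr j] ++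
      (V N κ r (b + 1) j).map (ren b j) ++ V N κ (r + 1) b j)).flatten := rfl

/-- The letters of the words `V`. -/
theorem V_letters (N : ℕ) (κ : ℕ → List (ℕ ⊕ ℕ))
    (hκ : ∀ b, ∀ x ∈ κ b, ∃ c, c < b ∧ x = Sum.inl c) (r : ℕ) :
    ∀ b j x, x ∈ V N κ r b j → (∃ c, c < b ∧ x = Sum.inl c) ∨ (∃ i, i < j ∧ x = Sum.inr i) := by
  induction r with
  | zero =>
    intro b j x hx
    exact Or.inl (hκ b x hx)
  | succ r ih =>
    intro b j
    induction j with
    | zero =>
      intro x hx
      rw [V_zero] at hx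
      exact Or.inl (hκ b x hx)
    | succ j ihj =>
      intro x hx
      rw [V_succ, List.mem_flatten] at hx
      obtain ⟨w, hw, hx⟩ := hx
      rw [List.eq_of_mem_replicate hw] at hx
      simp only [List.mem_append, List.mem_singleton, List.mem_map] at hx
      rcases hx with ((hx | hx) | ⟨y, hy, rfl⟩) | hx
      · rcases ihj x hx with h | ⟨i, hi, h⟩
        · exact Or.inl h
        · exact Or.inr ⟨i, by omega, h⟩
      · exact Or.inr ⟨j, by omega, hx⟩
      · rcases ih (b + 1) j y hy with ⟨c, hc, rfl⟩ | ⟨i, hi, rfl⟩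
        · by_cases hcb : c = b
          · exact Or.inr ⟨j, by omega, by simp [ren, hcb]⟩
          · exact Or.inl ⟨c, by omega, by simp [ren, hcb]⟩
        · exact Or.inr ⟨i, by omega, rfl⟩
      · rcases ihj x hx with h | ⟨i, hi, h⟩
        · exact Or.inl h
        · exact Or.inr ⟨i, by omega, h⟩

theorem sb_append_lt (v : List (ℕ ⊕ ℕ)) (a : ℕ ⊕ ℕ) (i : ℕ) (hi : i < v.length) :
    sb (v ++ [a]) (Sum.inr i) = sb v (Sum.inr i) := by
  show (v ++ [a]).getD i (Sum.inr i) = v.getD i (Sum.inr i)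
  rw [List.getD_append _ _ _ _ hi]

theorem sb_append_eq (v : List (ℕ ⊕ ℕ)) (a : ℕ ⊕ ℕ) :
    sb (v ++ [a]) (Sum.inr v.length) = a := by
  show (v ++ [a]).getD v.length (Sum.inr v.length) = a
  rw [List.getD_append_right _ _ _ _ le_rfl]
  simp

theorem sb_mem (v : List (ℕ ⊕ ℕ)) (i : ℕ) (hi : i < v.length) : sb v (Sum.inr i) ∈ v := by
  show v.getD i (Sum.inr i) ∈ v
  rw [List.getD_eq_getElem _ _ hi]
  exact List.getElem_mem hi

/-- The symbols of an `s`-variable word have their values in the submonoid. -/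
theorem mem_gen {M : Type} [Monoid M] (μ : ℕ ⊕ ℕ → M) (b s : ℕ) (v : List (ℕ ⊕ ℕ))
    (hv : VW b s v) (x : ℕ ⊕ ℕ) (hx : x ∈ v) : μ x ∈ Sgen μ b s := by
  apply Submonoid.subset_closure
  rcases x with c | i
  · exact Or.inl ⟨c, hv.letters c hx, rfl⟩
  · exact Or.inr ⟨i, hv.bound i hx, rfl⟩

theorem val_mem {M : Type} [Monoid M] (μ : ℕ ⊕ ℕ → M) (b s : ℕ) (v u : List (ℕ ⊕ ℕ))
    (hv : VW b s v) (hu : ∀ x ∈ u, (∃ c, c < b ∧ x = Sum.inl c) ∨
      (∃ i, i < v.length ∧ x = Sum.inr i)) : val μ v u ∈ Sgen μ b s := by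
  unfold val
  apply Submonoid.list_prod_mem
  intro y hy
  rw [List.mem_map] at hy
  obtain ⟨x, hx, rfl⟩ := hy
  rcases hu x hx with ⟨c, hc, rfl⟩ | ⟨i, hi, rfl⟩
  · exact Submonoid.subset_closure (Or.inl ⟨c, hc, rfl⟩)
  · exact mem_gen μ b s v hv _ (sb_mem v i hi)

/-- Splitting off the last symbol of a variable word. -/
theorem vw_split (b s : ℕ) (v : List (ℕ ⊕ ℕ)) (a : ℕ ⊕ ℕ) (h : VW b s (v ++ [a])) :
    VW b s v ∨ ∃ s', s = s' + 1 ∧ a = Sum.inr s' ∧ VW b s' v := by
  have hlet : ∀ c : ℕ, Sum.inl c ∈ v → c < b := fun c hc => h.letters c (by simp [hc])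
  have hbd : ∀ i : ℕ, Sum.inr i ∈ v → i < s := fun i hi => h.bound i (by simp [hi])
  have hord : ∀ i p : ℕ, v[p]? = some (Sum.inr (i + 1)) →
      ∃ q, q < p ∧ v[q]? = some (Sum.inr i) := by
    intro i p hp
    have hpl : p < v.length := by
      rw [List.getElem?_eq_some_iff] at hp
      exact hp.1
    have h1 : (v ++ [a])[p]? = some (Sum.inr (i + 1)) := by
      rw [List.getElem?_append_left hpl]
      exact hp
    obtain ⟨q, hq, hq2⟩ := h.order i p h1
    refine ⟨q, hq, ?_⟩
    rw [List.getElem?_append_left (by omega)] at hq2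
    exact hq2
  have hdown : ∀ i : ℕ, Sum.inr (i + 1) ∈ v → Sum.inr i ∈ v := by
    intro i hi
    rw [List.mem_iff_getElem?] at hi
    obtain ⟨p, hp⟩ := hi
    obtain ⟨q, _, hq⟩ := hord i p hp
    exact List.mem_of_getElem? hq
  rcases s with _ | s'
  · left
    exact ⟨hlet, hbd, fun i hi => absurd hi (Nat.not_lt_zero i), hord⟩
  · by_cases hin : Sum.inr s' ∈ v
    · left
      refine ⟨hlet, hbd, ?_, hord⟩
      intro i hi
      have hdn : ∀ d : ℕ, ∀ i, i + d = s' → Sum.inr i ∈ v := by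
        intro d
        induction d with
        | zero =>
          intro i hi
          have : i = s' := by omega
          rw [this]
          exact hin
        | succ d ih =>
          intro i hi
          exact hdown i (ih (i + 1) (by omega))
      exact hdn (s' - i) i (by omega)
    · right
      have ha : a = Sum.inr s' := by
        have h1 := h.occurs s' (by omega)
        rw [List.mem_append, List.mem_singleton] at h1
        rcases h1 with h1 | h1
        · exact absurd h1 hin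
        · exact h1.symm
      refine ⟨s', rfl, ha, hlet, ?_, ?_, hord⟩
      · intro i hi
        have h1 := hbd i hi
        have h2 : i ≠ s' := by
          rintro rfl
          exact hin hi
        omega
      · intro i hi
        have h1 := h.occurs i (by omega)
        rw [List.mem_append, List.mem_singleton] at h1
        rcases h1 with h1 | h1
        · exact h1
        · rw [ha] at h1
          have := Sum.inr.inj h1
          omega

theorem vw_mono (b s : ℕ) (v : List (ℕ ⊕ ℕ)) (h : VW b s v) : VW (b + 1) s v :=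
  ⟨fun c hc => (h.letters c hc).trans (Nat.lt_succ_self b), h.bound, h.occurs, h.order⟩

theorem Sgen_eq {M : Type} [Monoid M] (μ : ℕ ⊕ ℕ → M) (b s : ℕ) :
    Sgen (Function.update μ (Sum.inl b) (μ (Sum.inr s))) (b + 1) s = Sgen μ b (s + 1) := by
  unfold Sgen
  congr 1
  ext x
  constructor
  · rintro (⟨c, hc, rfl⟩ | ⟨i, hi, rfl⟩)
    · by_cases hcb : c = b
      · subst hcb
        right
        exact ⟨s, by omega, by simp⟩
      · left
        refine ⟨c, by omega, ?_⟩
        rw [Function.update_of_ne]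
        intro h
        exact hcb (Sum.inl.inj h)
    · right
      refine ⟨i, by omega, ?_⟩
      rw [Function.update_of_ne]
      exact fun h => by cases h
  · rintro (⟨c, hc, rfl⟩ | ⟨i, hi, rfl⟩)
    · left
      refine ⟨c, by omega, ?_⟩
      rw [Function.update_of_ne]
      intro h
      have := Sum.inl.inj h
      omega
    · by_cases his : i = s
      · subst his
        left
        exact ⟨b, by omega, by simp⟩
      · right
        refine ⟨i, by omega, ?_⟩
        rw [Function.update_of_ne]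
        exact fun h => by cases h

/-- The value of the middle part `Y`. -/
theorem val_Y {M : Type} [Monoid M] (μ : ℕ ⊕ ℕ → M) (b s : ℕ) (v u : List (ℕ ⊕ ℕ)) (a : ℕ ⊕ ℕ)
    (hv : VW b s v) (hu : ∀ x ∈ u, (∃ c, c < b + 1 ∧ x = Sum.inl c) ∨
      (∃ i, i < v.length ∧ x = Sum.inr i)) :
    val μ (v ++ [a]) (u.map (ren b v.length)) =
      val (Function.update μ (Sum.inl b) (μ a)) v u := by
  unfold val
  rw [List.map_map]
  congr 1
  apply List.map_congr_left
  intro x hx
  simp only [Function.comp_apply]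
  rcases hu x hx with ⟨c, hc, rfl⟩ | ⟨i, hi, rfl⟩
  · by_cases hcb : c = b
    · subst hcb
      have h1 : ren c v.length (Sum.inl c) = Sum.inr v.length := by simp [ren]
      have h2 : sb v (Sum.inl c) = Sum.inl c := rfl
      rw [h1, sb_append_eq, h2, Function.update_self]
    · have h1 : ren b v.length (Sum.inl c) = Sum.inl c := by simp [ren, hcb]
      have h2 : sb v (Sum.inl c) = Sum.inl c := rfl
      have h3 : sb (v ++ [a]) (Sum.inl c) = Sum.inl c := rfl
      rw [h1, h2, h3, Function.update_of_ne]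
      intro h
      exact hcb (Sum.inl.inj h)
  · have h1 : ren b v.length (Sum.inr i) = Sum.inr i := rfl
    rw [h1, sb_append_lt v a i hi, Function.update_of_ne]
    intro h
    have h2 := sb_mem v i hi
    rw [h] at h2
    have := hv.letters b h2
    omega

/-- **UWA**. -/
theorem V_const {M : Type} [Monoid M] [Finite M] (N : ℕ) (hN : 0 < N)
    (hid : ∀ x : M, x ^ N * x ^ N = x ^ N) (κ : ℕ → List (ℕ ⊕ ℕ)) (hκ : Kap M κ) (r b : ℕ)
    (μ : ℕ ⊕ ℕ → M) :
    ∃ e : ℕ → M, ∀ s ≤ r, MinIdem (Sgen μ b s) (e s) ∧ ∀ v : List (ℕ ⊕ ℕ), VW b s v →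
      ((sub v (V N κ r b v.length)).map μ).prod = e s := by
  have hκl : ∀ b, ∀ x ∈ κ b, ∃ c, c < b ∧ x = Sum.inl c := fun b => (hκ b).1
  have hκv : ∀ (b : ℕ) (μ : ℕ ⊕ ℕ → M) (v : List (ℕ ⊕ ℕ)),
      val μ v (κ b) = ((κ b).map μ).prod := by
    intro b μ v
    unfold val
    congr 1
    apply List.map_congr_left
    intro x hx
    obtain ⟨c, _, rfl⟩ := hκl b x hx
    rfl
  induction r generalizing b μ with
  | zero =>
    refine ⟨fun _ => ((κ b).map μ).prod, ?_⟩
    intro s hs
    obtain rfl : s = 0 := by omega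
    refine ⟨(hκ b).2 μ, ?_⟩
    intro v _
    rw [val_eq]
    exact hκv b μ v
  | succ r ih =>
    choose E hE using fun s : ℕ => ih (b + 1) (Function.update μ (Sum.inl b) (μ (Sum.inr s)))
    let e : ℕ → M := fun s => Nat.rec ((κ b).map μ).prod
      (fun s es => (es * μ (Sum.inr s) * E s s * es) ^ N) s
    have e0 : e 0 = ((κ b).map μ).prod := rfl
    have es : ∀ s, e (s + 1) = (e s * μ (Sum.inr s) * E s s * e s) ^ N := fun _ => rfl
    have hle : ∀ s, Sgen μ b s ≤ Sgen μ b (s + 1) := by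
      intro s
      apply Submonoid.closure_mono
      rintro x (⟨c, hc, rfl⟩ | ⟨i, hi, rfl⟩)
      · exact Or.inl ⟨c, hc, rfl⟩
      · exact Or.inr ⟨i, by omega, rfl⟩
    have hmin : ∀ s, s ≤ r + 1 → MinIdem (Sgen μ b s) (e s) := by
      intro s
      induction s with
      | zero =>
        intro _
        rw [e0]
        exact (hκ b).2 μ
      | succ s ihs =>
        intro hs
        have h1 := ihs (by omega)
        have h2 := (hE s s (by omega)).1
        rw [Sgen_eq] at h2
        rw [es]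
        refine F3 N hN hid ?_ h2 (hle s h1.1)
        refine Submonoid.mul_mem _ (hle s h1.1) ?_
        exact Submonoid.subset_closure (Or.inr ⟨s, by omega, rfl⟩)
    refine ⟨e, ?_⟩
    intro s hs
    refine ⟨hmin s hs, ?_⟩
    intro v
    rw [val_eq]
    induction v using List.reverseRecOn generalizing s with
    | nil =>
      intro hv
      have hs0 : s = 0 := by
        by_contra hne
        have := hv.occurs 0 (by omega)
        simp at this
      subst hs0
      rw [List.length_nil, V_zero, e0]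
      exact hκv b μ []
    | append_singleton v a ihv =>
      intro hv
      have hlen : (v ++ [a]).length = v.length + 1 := by simp
      rw [hlen, V_succ, val_rep, val_append, val_append, val_append, val_single, sb_append_eq]
      have hVl := V_letters N κ hκl (r + 1) b v.length
      have hYl := V_letters N κ hκl r (b + 1) v.length
      have hVj : val μ (v ++ [a]) (V N κ (r + 1) b v.length) =
          val μ v (V N κ (r + 1) b v.length) := by
        apply val_congr
        intro x hx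
        rcases hVl x hx with ⟨c, _, rfl⟩ | ⟨i, hi, rfl⟩
        · rfl
        · rw [sb_append_lt v a i hi]
      rw [hVj]
      rcases vw_split b s v a hv with hv' | ⟨s', rfl, rfl, hv'⟩
      · rw [ihv s hs hv']
        have hm : μ a * val μ (v ++ [a]) ((V N κ r (b + 1) v.length).map (ren b v.length)) ∈
            Sgen μ b s := by
          refine Submonoid.mul_mem _ (mem_gen μ b s _ hv a (by simp)) ?_
          apply val_mem μ b s (v ++ [a]) _ hv
          intro x hx
          rw [List.mem_map] at hx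
          obtain ⟨y, hy, rfl⟩ := hx
          rcases hYl y hy with ⟨c, hc, rfl⟩ | ⟨i, hi, rfl⟩
          · by_cases hcb : c = b
            · exact Or.inr ⟨v.length, by rw [hlen]; omega, by simp [ren, hcb]⟩
            · exact Or.inl ⟨c, by omega, by simp [ren, hcb]⟩
          · exact Or.inr ⟨i, by rw [hlen]; omega, rfl⟩
        have h2 := F2 N hN hid (hmin s hs) hm
        rw [← mul_assoc (e s) (μ a)] at h2
        exact h2
      · rw [ihv s' (by omega) hv', es]
        congr 3
        rw [val_Y μ b s' v _ (Sum.inr s') hv' hYl]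
        have h3 := (hE s' s' (by omega)).2 v (vw_mono b s' v hv')
        rw [val_eq] at h3
        exact h3

end Pool.Agent.Helper41.OV
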